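import Pool.Agent.Y785.RM.Cartan

/-!
# Existence of maximal tori
-/

set_option autoImplicit false

namespace Pool.Agent.N203.RE

open Module Polynomial Pool.Agent.Y114.RM Pool.Agent.Y785.RM

variable {K : Type} [Field K] [CharZero K] {V : Type} [AddCommGroup V] [Module K V]
  [FiniteDimensional K V]

/-- A maximal commutative space of diagonalizable elements contains an element whose centralizer is
this space. -/
theorem exists_torus (G : Submodule K (End K V)) (hG : IsLie G) (hnd : NonDeg G)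
    (hss : ∀ x ∈ G, ∃ s ∈ G, IsSemisimplePart x s) :
    ∃ t : Submodule K (End K V), t ≤ G ∧ (∀ a ∈ t, ⨆ μ, End.eigenspace a μ = ⊤) ∧
      (∀ a ∈ t, ∀ b ∈ t, a * b = b * a) ∧ ∃ a ∈ t, ∀ x ∈ G, a * x = x * a → x ∈ t := by
  classical
  -- a torus of maximal dimension
  let S : Set (Submodule K (End K V)) := {t | t ≤ G ∧ (∀ a ∈ t, Dg a) ∧
    (∀ a ∈ t, ∀ b ∈ t, a * b = b * a)}
  have hSne : S.Nonempty := by
    refine ⟨⊥, bot_le, fun a ha => ?_, fun a ha b hb => ?_⟩
    · rw [Submodule.mem_bot] at ha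
      rw [ha]
      unfold Dg
      rw [eq_top_iff]
      refine le_trans ?_ (le_iSup (fun μ => End.eigenspace (0 : End K V) μ) 0)
      intro x _
      rw [End.mem_eigenspace_iff, LinearMap.zero_apply, zero_smul]
    · rw [Submodule.mem_bot] at ha hb
      rw [ha, hb]
  obtain ⟨t, ⟨htG, hd, hc⟩, hmax⟩ : ∃ t ∈ S, ∀ t' ∈ S, finrank K t' ≤ finrank K t := by
    have hbd : ∃ N : ℕ, ∀ t ∈ S, finrank K t ≤ N := ⟨finrank K (End K V), fun t _ =>
      Submodule.finrank_le t⟩
    have h1 : ((fun t : Submodule K (End K V) => finrank K t) '' S).Finite := by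
      obtain ⟨N, hN⟩ := hbd
      refine (Set.finite_Iic N).subset ?_
      rintro _ ⟨t, ht, rfl⟩
      exact hN t ht
    obtain ⟨m, ⟨t, ht, rfl⟩, hm⟩ := Set.exists_max_image
      ((fun t : Submodule K (End K V) => finrank K t) '' S) id h1 (hSne.image _)
    exact ⟨t, ht, fun t' ht' => hm _ ⟨t', ht', rfl⟩⟩
  obtain ⟨a, ha, hgen⟩ := gen t hd hc
  refine ⟨t, htG, hd, hc, a, ha, ?_⟩
  -- membership in the centralizer
  have hcomm : ∀ y : End K V, a * y = y * a → ∀ b ∈ t, b * y = y * b := by
    intro y hy b hb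
    obtain ⟨q, rfl⟩ := hgen b hb
    have h1 : Commute a y := hy
    exact comm_aeval h1 q
  choose! s hsG hs using hss
  -- the semisimple parts lie in `t`
  have hst : ∀ y ∈ G, (∀ b ∈ t, b * y = y * b) → s y ∈ t := by
    intro y hy hyt
    obtain ⟨h1, h2, h3⟩ := hs y hy
    have h4 : ∀ b ∈ t, Commute b (s y) := fun b hb => (h3 b (hyt b hb).symm).symm
    have ht' : ∀ z ∈ t ⊔ Submodule.span K {s y}, ∃ b ∈ t, ∃ c : K, z = b + c • s y := by
      intro z hz
      obtain ⟨b, hb, d, hd', rfl⟩ := Submodule.mem_sup.1 hz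
      obtain ⟨c, rfl⟩ := Submodule.mem_span_singleton.1 hd'
      exact ⟨b, hb, c, rfl⟩
    have h5 := hmax (t ⊔ Submodule.span K {s y})
      ⟨sup_le htG ((Submodule.span_singleton_le_iff_mem _ _).2 (hsG y hy)), by
        intro z hz
        obtain ⟨b, hb, c, rfl⟩ := ht' z hz
        exact dg_add (hd b hb) h1 (h4 b hb) c, by
        intro z hz z' hz'
        obtain ⟨b, hb, c, rfl⟩ := ht' z hz
        obtain ⟨b', hb', c', rfl⟩ := ht' z' hz'
        have k1 : Commute b b' := hc b hb b' hb'
        have k2 : Commute b (c' • s y) := (h4 b hb).smul_right c'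
        have k3 : Commute (c • s y) b' := ((h4 b' hb').smul_right c).symm
        have k4 : Commute (c • s y) (c' • s y) :=
          ((Commute.refl (s y)).smul_right c').smul_left c
        exact (k1.add_right k2).add_left (k3.add_right k4)⟩
    have h6 : t = t ⊔ Submodule.span K {s y} :=
      Submodule.eq_of_le_of_finrank_le le_sup_left h5
    rw [h6]
    exact Submodule.mem_sup_right (Submodule.mem_span_singleton_self _)
  -- the nilpotent parts
  have hnt : ∀ y ∈ G, (∀ b ∈ t, b * y = y * b) → ∀ b ∈ t, Commute b (y - s y) := by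
    intro y hy hyt b hb
    have k1 : Commute b y := hyt b hb
    have k2 : Commute b (s y) := hc b hb (s y) (hst y hy hyt)
    exact k1.sub_right k2
  have htr : ∀ y ∈ G, (∀ b ∈ t, b * y = y * b) → ∀ b ∈ t, ∀ p : K[X],
      LinearMap.trace K V ((y - s y) * aeval b p) = 0 := by
    intro y hy hyt b hb p
    refine tr_nil ?_ (hs y hy).2.1
    have h1 : Commute b (y - s y) := hnt y hy hyt b hb
    exact (comm_aeval h1 p).symm
  have hadd : ∀ y ∈ G, (∀ b ∈ t, b * y = y * b) → ∀ z ∈ G, (∀ b ∈ t, b * z = z * b) →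
      LinearMap.trace K V ((y - s y) * (z - s z)) = 0 := by
    intro y hy hyt z hz hzt
    have hyz : y + z ∈ G := G.add_mem hy hz
    have hyzt : ∀ b ∈ t, b * (y + z) = (y + z) * b := fun b hb => by
      rw [mul_add, add_mul, hyt b hb, hzt b hb]
    have ha' : s (y + z) - s y - s z ∈ t :=
      t.sub_mem (t.sub_mem (hst _ hyz hyzt) (hst y hy hyt)) (hst z hz hzt)
    have h1 : s (y + z) - s y - s z = (y - s y) + (z - s z) - ((y + z) - s (y + z)) := by abel
    have h2 : aeval (s (y + z) - s y - s z) (X : K[X]) = 0 := by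
      refine tr_zero (hd _ ha') X fun p => ?_
      rw [aeval_X, LinearMap.trace_mul_comm]
      nth_rewrite 1 [h1]
      rw [sub_mul, add_mul, map_sub, map_add, htr y hy hyt _ ha' p, htr z hz hzt _ ha' p,
        htr _ hyz hyzt _ ha' p, add_zero, sub_zero]
    rw [aeval_X] at h2
    have h3 : (y - s y) + (z - s z) = (y + z) - s (y + z) := by
      rw [h1, sub_eq_zero] at h2
      exact h2
    have h4 : IsNilpotent ((y - s y) + (z - s z)) := by
      rw [h3]
      exact (hs _ hyz).2.1
    have h5 := tr_nil (x := (y - s y) + (z - s z)) rfl h4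
    have h6 := tr_nil (x := y - s y) rfl (hs y hy).2.1
    have h7 := tr_nil (x := z - s z) rfl (hs z hz).2.1
    rw [mul_add, add_mul, add_mul, map_add, map_add, map_add, h6, h7,
      LinearMap.trace_mul_comm K (z - s z) (y - s y), zero_add, add_zero, ← two_mul] at h5
    exact (mul_eq_zero.1 h5).resolve_left two_ne_zero
  -- conclusion
  intro x hx hxa'
  have hxt := hcomm x hxa'
  have hxa : a * (x - s x) = (x - s x) * a := hnt x hx hxt a ha
  have h1 : x - s x = 0 := by
    refine nondeg_cen G hG hnd (htG ha) (hd a ha) (G.sub_mem hx (hsG x hx)) hxa ?_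
    intro y hy hya
    have hyt := hcomm y hya
    have h2 : y = s y + (y - s y) := by abel
    rw [h2, mul_add, map_add, hadd x hx hxt y hy hyt, add_zero]
    exact tr_nil (hnt x hx hxt _ (hst y hy hyt)).symm (hs x hx).2.1
  rw [sub_eq_zero] at h1
  rw [h1]
  exact hst x hx hxt

/-- A torus whose dimension is at least the rank of `G`, if all centralizers have dimension at least
`r`. -/
theorem exists_torus_rank (G : Submodule K (End K V)) (hG : IsLie G) (hnd : NonDeg G)
    (hss : ∀ x ∈ G, ∃ s ∈ G, IsSemisimplePart x s) {r : ℕ}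
    (hr : ∀ x ∈ G, r ≤ finrank K (cen G x)) :
    ∃ t : Submodule K (End K V), t ≤ G ∧ (∀ a ∈ t, ⨆ μ, End.eigenspace a μ = ⊤) ∧
      (∀ a ∈ t, ∀ b ∈ t, a * b = b * a) ∧ r ≤ finrank K t := by
  obtain ⟨t, htG, hd, hc, a, ha, hcen⟩ := exists_torus G hG hnd hss
  refine ⟨t, htG, hd, hc, (hr a (htG ha)).trans (Submodule.finrank_mono ?_)⟩
  rintro x ⟨hx, hax⟩
  exact hcen x hx hax

end Pool.Agent.N203.RE
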