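import Pool.Agent.N203.RE.Ext
import Pool.Agent.N203.RE.Torus
import Pool.Agent.R931.GD.Ram

/-!
# Rank and endomorphisms: the theorem
-/

set_option autoImplicit false
set_option linter.unusedSectionVars false
set_option linter.unusedVariables false

namespace Pool.Agent.N203.RE

open NumberField IsDedekindDomain Module TensorProduct Pool.Agent.Y114.RM Pool.Agent.Y114.MU
  Pool.Agent.Y114.TF Pool.Agent.Y114.GF Pool.Agent.H204R3.GP Pool.Agent.R931.IR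
  Pool.Agent.R931.BD

section hodge

variable {H : Type} [AddCommGroup H] [Module ℚ H] [FiniteDimensional ℚ H]

theorem hodge_half {𝔪 𝔤 : Submodule ℚ (End ℚ H)} (hle : 𝔪 ≤ 𝔤) (hm : Reductive 𝔪)
    (hg : Reductive 𝔤) {r : ℕ} (hrank : RatRankLE 𝔤 r) (hr : ComplexRankGE 𝔪 r)
    (hcom : CommutantFixed 𝔪 𝔤) : 𝔪 = 𝔤 := by
  have h := inputs
  have h2 := inputs2
  have hmC : IsLie (bcS ℂ 𝔪) := (h.bc ℚ ℂ H 𝔪).2.1 hm.bracket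
  have hmN : NonDeg (bcS ℂ 𝔪) := (h.bc ℚ ℂ H 𝔪).2.2.1 hm.nondeg
  have hgC : IsLie (bcS ℂ 𝔤) := (h.bc ℚ ℂ H 𝔤).2.1 hg.bracket
  have hgN : NonDeg (bcS ℂ 𝔤) := (h.bc ℚ ℂ H 𝔤).2.2.1 hg.nondeg
  obtain ⟨t, ht, hd, hc, hrt⟩ := exists_torus_rank (bcS ℂ 𝔪) hmC hmN
    (h2.jord ℚ ℂ H 𝔪 hm.algebraic) hr
  obtain ⟨X, hX, hXr⟩ := hrank
  have hcen := h2.cartan ℂ _ (bcS ℂ 𝔤) t hgC hgN (h2.jord ℚ ℂ H 𝔤 hg.algebraic)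
    (ht.trans (bcS_mono hle)) hd hc ⟨X.baseChange ℂ, mem_bcS hX, by
      rw [(h.bc ℚ ℂ H 𝔤).2.2.2.1]; exact hXr.trans hrt⟩
  exact eq_of_comm h h2 hm.bracket hle hg.bracket hg.nondeg hm.nondeg ht hd hc hcen hcom

end hodge

section main

variable {K : Type} [Field K] [NumberField K] {Γ : Type} [Group Γ] [TopologicalSpace Γ]
  {ι : Type} [Fintype ι] [DecidableEq ι] {n : ι → ℕ} [IsTopologicalGroup Γ] [CompactSpace Γ]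

theorem rankTheorem_of {ℓ : ℕ} [Fact ℓ.Prime] {ρ : Reps Γ n ℓ} (hρ : Conts ρ)
    {𝔤 : Submodule ℚ (End ℚ (Betti n))} (hg : Reductive 𝔤) (hmot : Motivic ρ (scalars ℓ 𝔤))
    {r : ℕ} (hrank : RatRankLE 𝔤 r)
    (h : ∃ (L : Submodule ℚ_[ℓ] (End ℚ_[ℓ] (∀ i, Fin (n i) → ℚ_[ℓ])))
      (_ : Algebra ℚ_[ℓ] ℂ) (t : Submodule ℂ (End ℂ (ℂ ⊗[ℚ_[ℓ]] (∀ i, Fin (n i) → ℚ_[ℓ])))),
      FiniteIndexSemisimple (sumRep ρ) ∧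
      (∀ X, X ∈ L ↔ ∀ (m : ℕ) (φ : Tensor ℚ_[ℓ] (∀ i, Fin (n i) → ℚ_[ℓ]) m),
        TateTensor (sumRep ρ) φ → KillsTensor X φ) ∧ IsLie L ∧ L ≤ scal ℓ 𝔤 ∧ NonDeg L ∧
      (∀ x ∈ L, r ≤ finrank ℚ_[ℓ] (cen L x)) ∧
      (∀ (τ : Γ) (d : ℕ), 2 ≤ d → (sumRep ρ τ - 1) ^ d = 0 →
        lgA d (sumRep ρ τ - 1) 1 ∈ L) ∧
      t ≤ bcS ℂ L ∧ (∀ a ∈ t, ⨆ μ, End.eigenspace a μ = ⊤) ∧
      (∀ a ∈ t, ∀ b ∈ t, a * b = b * a) ∧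
      (∀ x ∈ bcS ℂ (scal ℓ 𝔤), (∀ a ∈ t, a * x = x * a) → x ∈ t)) :
    RankTheorem ρ 𝔤 r := by
  obtain ⟨L, alg, t, hss, hLT, hLie, hLG, hND, hrk, -, htL, hdiag, hcomm, hcen⟩ := h
  have key : TateMotivated ρ 𝔤 ↔ TateEndomorphisms ρ 𝔤 := by
    refine ⟨endos_of_full (sumRep ρ) _, fun hend => ?_⟩
    have hfull : L = scal ℓ 𝔤 := full_of_endos ρ hρ (scal ℓ 𝔤) hmot alg hss hLT hLie hLG hND
      htL hdiag hcomm hcen hend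
    intro m φ
    exact ⟨fun hφ X hX => (hLT X).1 (hfull ▸ hX) m φ hφ, IsMotivic.tate hmot m φ⟩
  refine ⟨hss, ⟨L, hLT, ⟨hLie, hND, hrk, hLG⟩⟩, key, fun 𝔪 hle hm hr => ⟨fun h => ⟨?_, ?_⟩, fun h =>
    ⟨hodge_half hle hm hg hrank hr h.1, hss, key.2 h.2⟩⟩, fun 𝒯 _ θ top htop hcom => ?_⟩
  · rw [h.1]
    exact fun Y hY => hY
  · exact key.1 h.2.2
  · exact key.2 (endos_of_top ℓ ρ 𝔤 θ top htop hcom)

/-- One place of maximal rank, over a number field. -/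
theorem main_place {s : Gal(AlgebraicClosure K/K) →* Γ} {w : ι → ℤ}
    {S : Set (HeightOneSpectrum (𝓞 K))} {P : HeightOneSpectrum (𝓞 K) → ι → Polynomial ℚ}
    {ρ : ∀ (ℓ : ℕ) [Fact ℓ.Prime], Reps Γ n ℓ} {𝔤 : Submodule ℚ (End ℚ (Betti n))}
    (h : Realizations s w S P ρ 𝔤) (r : ℕ) (hrank : RatRankLE 𝔤 r)
    (p₀ : ℕ) (hp : MaximalRankAt S P r p₀) (ℓ : ℕ) [Fact ℓ.Prime] (hℓ : ℓ ≠ p₀) :
    RankTheorem (ρ ℓ) 𝔤 r := by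
  obtain ⟨hp₀, hunr, hp₀S, hind₀, v₀, hv₀, hr⟩ := hp
  refine rankTheorem_of (h.continuous ℓ) h.reductive (h.motivic ℓ) hrank ?_
  exact semi_main' (ρ ℓ) s h.continuous_point inputs inputs2 inputs3.rank (h.continuous ℓ)
    (scal ℓ 𝔤) (h.motivic ℓ) P _
    (by rw [(Pool.Agent.R931.GD.infinite_good S h.finite ℓ).encard_eq]; exact le_top)
    (fun p hp => ⟨hp.1, hp.2.1, hp.2.2.1⟩)
    (fun p hp v hv => goodPlace_of (restrictTo (ρ ℓ) s)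
      (h.good ℓ v (hp.2.2.2 v hv) fun h' => hp.2.1
        (Pool.Agent.R931.GD.above_inj hp.1 (Fact.out : ℓ.Prime) hv h')))
    (show p₀ ∈ {p : ℕ | p.Prime ∧ p ≠ ℓ ∧ UnramifiedIn K p ∧ ∀ v, Above v p → v ∉ S} from
      ⟨hp₀, hℓ.symm, hunr, hp₀S⟩) hind₀ hv₀ r (independentRoots_range hr) (rank_scalars ℓ hrank)

/-- One element at one prime number, over the rational numbers. -/
theorem main_element {s : Gal(AlgebraicClosure ℚ/ℚ) →* Γ} {w : ι → ℤ}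
    {S : Set (HeightOneSpectrum (𝓞 ℚ))} {P : HeightOneSpectrum (𝓞 ℚ) → ι → Polynomial ℚ}
    {ρ : ∀ (ℓ : ℕ) [Fact ℓ.Prime], Reps Γ n ℓ} {𝔤 : Submodule ℚ (End ℚ (Betti n))}
    (h : Realizations s w S P ρ 𝔤) (c : ℕ) (hint : IntegralOutside S P c)
    (r : ℕ) (hrank : RatRankLE 𝔤 r) (ℓ₀ : ℕ) [Fact ℓ₀.Prime]
    (hσ : ∃ σ, IndependentEigenvalues (ρ ℓ₀) (s σ) r) (ℓ : ℕ) [Fact ℓ.Prime] :
    RankTheorem (ρ ℓ) 𝔤 r :=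
  rankTheorem_of (h.continuous ℓ) h.reductive (h.motivic ℓ) hrank
    (tuple s h.continuous_point w c S h.finite P ℓ₀ (ρ ℓ₀) (h.continuous ℓ₀)
      (fun v hv hvℓ i => ⟨h.good ℓ₀ v hv hvℓ i, hint v hv i⟩) r hσ ℓ (ρ ℓ) (h.continuous ℓ)
      (h.good ℓ) (scal ℓ 𝔤) (h.motivic ℓ) (rank_scalars ℓ hrank))

end main

end Pool.Agent.N203.RE
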