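import Pool.Agent.Y114.RM.Final
import Pool.Agent.R931.IR.Defs

/-!
# Rank and endomorphisms: definitions
-/

set_option autoImplicit false

namespace Pool.Agent.N203.RE

open NumberField IsDedekindDomain Module Polynomial TensorProduct Pool.Agent.Y114.RM
  Pool.Agent.Y114.MU Pool.Agent.Y114.TF Pool.Agent.Y114.GF Pool.Agent.R931.IR

section betti

variable {ι : Type} (n : ι → ℕ)

/-- The sum of the Betti realizations, in coordinates: the direct sum of the spaces `ℚ ^ (n i)`. -/
def Betti : Type := ∀ i, Fin (n i) → ℚ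

instance : AddCommGroup (Betti n) := inferInstanceAs (AddCommGroup (∀ i, Fin (n i) → ℚ))

instance : Module ℚ (Betti n) := inferInstanceAs (Module ℚ (∀ i, Fin (n i) → ℚ))

/-- Endomorphisms of the direct sum of the spaces `ℚ_ℓ ^ (n i)`. -/
abbrev LadicEnd (ℓ : ℕ) [Fact ℓ.Prime] : Type := End ℚ_[ℓ] (∀ i, Fin (n i) → ℚ_[ℓ])

variable {n}

/-- The vector with rational coordinates, as a vector with coordinates in `ℚ_ℓ`. -/
noncomputable def toLadic (ℓ : ℕ) [Fact ℓ.Prime] (x : Betti n) : ∀ i, Fin (n i) → ℚ_[ℓ] :=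
  fun i j => ((x i j : ℚ) : ℚ_[ℓ])

/-- The endomorphism `Y` over the `ℓ`-adic numbers extends the rational endomorphism `X`. -/
def Extends {ℓ : ℕ} [Fact ℓ.Prime] (X : End ℚ (Betti n)) (Y : LadicEnd n ℓ) : Prop :=
  ∀ x : Betti n, Y (toLadic ℓ x) = toLadic ℓ (X x)

/-- The extension of scalars of a space of rational endomorphisms. -/
noncomputable def scalars (ℓ : ℕ) [Fact ℓ.Prime] (𝔤 : Submodule ℚ (End ℚ (Betti n))) :
    EndSpace n ℓ :=
  (Submodule.span ℚ_[ℓ] {Y | ∃ X ∈ 𝔤, Extends X Y} : Submodule ℚ_[ℓ] (LadicEnd n ℓ))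

end betti

section hodge

variable {H : Type} [AddCommGroup H] [Module ℚ H]

/-- `𝔤` has the properties of the Lie algebra of a reductive algebraic group: it is a Lie algebra, its
trace form is nondegenerate, and it contains all endomorphisms which kill all tensors killed by
`𝔤`. -/
structure Reductive (𝔤 : Submodule ℚ (End ℚ H)) : Prop where
  bracket : IsLie 𝔤
  nondeg : NonDeg 𝔤
  algebraic : ∀ X, (∀ (m : ℕ) (φ : Tensor ℚ H m), (∀ Y ∈ 𝔤, KillsTensor Y φ) →
    KillsTensor X φ) → X ∈ 𝔤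

/-- The rank of `𝔤` is at most `r`: the centralizer in `𝔤` of some element of `𝔤` has at most the
dimension `r`. -/
def RatRankLE (𝔤 : Submodule ℚ (End ℚ H)) (r : ℕ) : Prop := ∃ X ∈ 𝔤, finrank ℚ (cen 𝔤 X) ≤ r

/-- The rank of `𝔪 ⊗ ℂ` is at least `r`: the centralizers in `𝔪 ⊗ ℂ` of all its elements have at least
the dimension `r`. -/
def ComplexRankGE (𝔪 : Submodule ℚ (End ℚ H)) (r : ℕ) : Prop := RankAtLeast (bcS ℂ 𝔪) r

/-- Every endomorphism which commutes with all elements of `A` commutes with `𝔤`. -/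
def CommutantFixed (A : Set (End ℚ H)) (𝔤 : Submodule ℚ (End ℚ H)) : Prop :=
  ∀ Y : End ℚ H, (∀ X ∈ A, X * Y = Y * X) → ∀ X ∈ 𝔤, X * Y = Y * X

end hodge

/-- Every endomorphism which commutes with a subgroup of finite index of `Γ` commutes with `𝔥`. -/
def EndosCommute {k V Γ : Type} [Field k] [AddCommGroup V] [Module k V] [Group Γ]
    (ρ : Representation k Γ V) (𝔥 : Submodule k (End k V)) : Prop :=
  ∀ Y : End k V, (∃ Δ : Subgroup Γ, Δ.FiniteIndex ∧ ∀ γ ∈ Δ, ρ γ * Y = Y * ρ γ) →
    ∀ X ∈ 𝔥, X * Y = Y * X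

section places

variable {K : Type} [Field K] [NumberField K] {Γ : Type} [Group Γ] {ι : Type} {n : ι → ℕ}

/-- The places above `p` are independent: if a product of numbers `x v` in the groups generated by
the quotients of the Frobenius eigenvalues at the places `v` above `p` is a root of unity, then all
`x v` are roots of unity. -/
def PlacesIndependent (P : HeightOneSpectrum (𝓞 K) → ι → ℚ[X]) (p : ℕ) : Prop :=
  ∀ x : HeightOneSpectrum (𝓞 K) → ℂˣ, (∀ v, Above v p → x v ∈ ratioGroup (P v)) →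
    (∃ m : ℕ, 0 < m ∧ (∏ᶠ (v : HeightOneSpectrum (𝓞 K)) (_ : Above v p), x v) ^ m = 1) →
    ∀ v, Above v p → ∃ m : ℕ, 0 < m ∧ x v ^ m = 1

/-- `p₀` is a prime number of good reduction, unramified in `K`, the places above `p₀` are
independent (there is no condition if there is only one), and at one of them there are `r`
multiplicatively independent Frobenius eigenvalues. -/
structure MaximalRankAt (S : Set (HeightOneSpectrum (𝓞 K)))
    (P : HeightOneSpectrum (𝓞 K) → ι → ℚ[X]) (r p₀ : ℕ) : Prop where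
  prime : p₀.Prime
  unramified : UnramifiedIn K p₀
  good : ∀ v, Above v p₀ → v ∉ S
  independent : PlacesIndependent P p₀
  rank : ∃ v₀, Above v₀ p₀ ∧ IndepRoots r (Set.range (P v₀))

/-- `(q v) ^ c` times the Frobenius eigenvalues at the places outside of `S` are algebraic
integers. -/
def IntegralOutside (S : Set (HeightOneSpectrum (𝓞 ℚ)))
    (P : HeightOneSpectrum (𝓞 ℚ) → ι → ℚ[X]) (c : ℕ) : Prop :=
  ∀ v ∉ S, ∀ i, IntegralRoots c v (P v i)

end places

section main

variable {K : Type} [Field K] [NumberField K] {Γ : Type} [Group Γ] {ι : Type} {n : ι → ℕ}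

/-- The realizations of a direct sum of pure motives `M i`, of dimension `n i` and weight `w i`, over
the number field `K`, or over a finitely generated field with a point `s` in `K` of a model (`Γ` is
the fundamental group of the model).

`ρ ℓ` are the `ℓ`-adic realizations, and `𝔤` is the Lie algebra of the motivic Galois group over an
algebraically closed field, in the Betti realization. Outside of the finite set `S` the (fibre at `s`
of the) motive has good reduction, with the Frobenius polynomials `P v i`. -/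
structure Realizations [TopologicalSpace Γ] [DecidableEq ι] (s : Gal(AlgebraicClosure K/K) →* Γ)
    (w : ι → ℤ) (S : Set (HeightOneSpectrum (𝓞 K)))
    (P : HeightOneSpectrum (𝓞 K) → ι → ℚ[X]) (ρ : ∀ (ℓ : ℕ) [Fact ℓ.Prime], Reps Γ n ℓ)
    (𝔤 : Submodule ℚ (End ℚ (Betti n))) : Prop where
  continuous_point : Continuous s
  continuous : ∀ (ℓ : ℕ) [Fact ℓ.Prime], Conts (ρ ℓ)
  finite : S.Finite
  good : ∀ (ℓ : ℕ) [Fact ℓ.Prime], ∀ v ∉ S, ¬ Above v ℓ → ∀ i,
    GoodReduction (restrictTo (ρ ℓ) s) i (w i) v (P v i)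
  reductive : Reductive 𝔤
  motivic : ∀ (ℓ : ℕ) [Fact ℓ.Prime], Motivic (ρ ℓ) (scalars ℓ 𝔤)

variable {ℓ : ℕ} [Fact ℓ.Prime]

/-- All Tate tensors are motivated: they are the tensors killed by `𝔤 ⊗ ℚ_ℓ`. -/
def TateMotivated (ρ : Reps Γ n ℓ) (𝔤 : Submodule ℚ (End ℚ (Betti n))) : Prop :=
  TateTensorsOf ρ (scalars ℓ 𝔤)

/-- All Tate endomorphisms are motivated: the endomorphisms which commute with a subgroup of finite
index of `Γ` commute with `𝔤 ⊗ ℚ_ℓ`. -/
def TateEndomorphisms (ρ : Reps Γ n ℓ) (𝔤 : Submodule ℚ (End ℚ (Betti n))) : Prop :=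
  EndosCommute (sumRep ρ) (scalars ℓ 𝔤)

/-- The motivated Mumford-Tate conjecture at `ℓ`, in terms of Lie algebras: `𝔪` (the Lie algebra of
the Mumford-Tate group) is equal to `𝔤` (the Lie algebra of the motivic Galois group), the
representation is semisimple over all finite extensions, and the Tate tensors are the tensors
killed by `𝔤 ⊗ ℚ_ℓ`. -/
def MumfordTateAt (ρ : Reps Γ n ℓ) (𝔪 𝔤 : Submodule ℚ (End ℚ (Betti n))) : Prop :=
  𝔪 = 𝔤 ∧ Semisimple ρ ∧ TateMotivated ρ 𝔤

/-- The Lie algebra of the endomorphisms which kill all Tate tensors is a reductive subalgebra of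
`𝔤 ⊗ ℚ_ℓ` of rank at least `r`. -/
def MaximalRank (ρ : Reps Γ n ℓ) (𝔤 : Submodule ℚ (End ℚ (Betti n))) (r : ℕ) : Prop :=
  ∃ 𝔥 : EndSpace n ℓ, KillsTateTensors ρ 𝔥 ∧ ReductiveOfRank (scalars ℓ 𝔤) 𝔥 r

/-- If `𝔪` (the Lie algebra of the Mumford-Tate group) has the rank `r`, then the motivated
Mumford-Tate conjecture at `ℓ` is equivalent to its part for endomorphisms. -/
def HodgePart (ρ : Reps Γ n ℓ) (𝔤 : Submodule ℚ (End ℚ (Betti n))) (r : ℕ) : Prop :=
  ∀ 𝔪 : Submodule ℚ (End ℚ (Betti n)), 𝔪 ≤ 𝔤 → Reductive 𝔪 → ComplexRankGE 𝔪 r →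
    (MumfordTateAt ρ 𝔪 𝔤 ↔ CommutantFixed 𝔪 𝔤 ∧ TateEndomorphisms ρ 𝔤)

/-- All Tate tensors are motivated if the endomorphisms of the Betti realization which commute
with a subgroup of finite index of a topological fundamental group `𝒯`, which acts by `top` on the
Betti realization, are motivated. -/
def TopologicalPart (ρ : Reps Γ n ℓ) (𝔤 : Submodule ℚ (End ℚ (Betti n))) : Prop :=
  ∀ (𝒯 : Type) [Group 𝒯] (θ : 𝒯 →* Γ) (top : 𝒯 → End ℚ (Betti n)),
    (∀ t, Extends (top t) (sumRep ρ (θ t))) →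
    (∀ Δ : Subgroup 𝒯, Δ.FiniteIndex → CommutantFixed (top '' Δ) 𝔤) → TateMotivated ρ 𝔤

/-- What is proved at the prime number `ℓ`, in terms of the rank `r` of `𝔤`. -/
structure RankTheorem (ρ : Reps Γ n ℓ) (𝔤 : Submodule ℚ (End ℚ (Betti n))) (r : ℕ) : Prop where
  /-- The representation is semisimple over all finite extensions. -/
  semisimple : Semisimple ρ
  /-- The Lie algebra of the Tate tensors is reductive, and has maximal rank in `𝔤 ⊗ ℚ_ℓ`. -/
  rank : MaximalRank ρ 𝔤 r
  /-- All Tate tensors are motivated if and only if all Tate endomorphisms are motivated. -/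
  tate : TateMotivated ρ 𝔤 ↔ TateEndomorphisms ρ 𝔤
  mumfordTate : HodgePart ρ 𝔤 r
  topological : TopologicalPart ρ 𝔤

end main

end Pool.Agent.N203.RE
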