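import Pool.Agent.R931.BD.Place
import Pool.Agent.N203.RE.Defs

/-!
# Extension of scalars from the rational to the `ℓ`-adic numbers
-/

set_option autoImplicit false

namespace Pool.Agent.N203.RE

open Module TensorProduct Pool.Agent.Y114.RM Pool.Agent.Y114.MU Pool.Agent.Y114.TF
  Pool.Agent.H204R3.GP Pool.Agent.R931.BD

instance {ι : Type} [Finite ι] (n : ι → ℕ) : FiniteDimensional ℚ (Betti n) :=
  inferInstanceAs (FiniteDimensional ℚ (∀ i, Fin (n i) → ℚ))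

/-- The extension of scalars, with its type. -/
noncomputable abbrev scal {ι : Type} {n : ι → ℕ} (ℓ : ℕ) [Fact ℓ.Prime]
    (𝔤 : Submodule ℚ (End ℚ (Betti n))) :
    Submodule ℚ_[ℓ] (End ℚ_[ℓ] (∀ i, Fin (n i) → ℚ_[ℓ])) := scalars ℓ 𝔤

section lemmas

variable {ι : Type} [Fintype ι] [DecidableEq ι] {n : ι → ℕ} (ℓ : ℕ) [Fact ℓ.Prime]

/-- the comparison of coordinates -/
noncomputable def ee0 : ℚ_[ℓ] ⊗[ℚ] (∀ i, Fin (n i) → ℚ) ≃ₗ[ℚ_[ℓ]] (∀ i, Fin (n i) → ℚ_[ℓ]) :=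
  (TensorProduct.piRight ℚ ℚ_[ℓ] ℚ_[ℓ] (fun i => Fin (n i) → ℚ)) ≪≫ₗ
    LinearEquiv.piCongrRight (fun i => TensorProduct.piScalarRight ℚ ℚ_[ℓ] ℚ_[ℓ] (Fin (n i)))

theorem ee0_one (x : ∀ i, Fin (n i) → ℚ) :
    ee0 ℓ ((1 : ℚ_[ℓ]) ⊗ₜ[ℚ] x) = fun i j => ((x i j : ℚ) : ℚ_[ℓ]) := by
  funext i j
  simp [ee0, Algebra.smul_def]

/-- the comparison of coordinates -/
noncomputable def ee : ℚ_[ℓ] ⊗[ℚ] (Betti n) ≃ₗ[ℚ_[ℓ]] (∀ i, Fin (n i) → ℚ_[ℓ]) := ee0 ℓ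

theorem ee_one (x : Betti n) : ee ℓ ((1 : ℚ_[ℓ]) ⊗ₜ[ℚ] x) = toLadic ℓ x := ee0_one ℓ x

theorem extends_iff (X : End ℚ (Betti n)) (Y : End ℚ_[ℓ] (∀ i, Fin (n i) → ℚ_[ℓ])) :
    Extends X Y ↔ Y = (ee ℓ).conj (X.baseChange ℚ_[ℓ]) := by
  constructor
  · intro h
    have h1 : Y ∘ₗ (ee ℓ).toLinearMap = (ee ℓ).toLinearMap ∘ₗ X.baseChange ℚ_[ℓ] := by
      refine TensorProduct.AlgebraTensorModule.curry_injective ?_
      ext1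
      refine LinearMap.ext fun x => ?_
      change Y (ee ℓ ((1 : ℚ_[ℓ]) ⊗ₜ[ℚ] x)) = ee ℓ (X.baseChange ℚ_[ℓ] ((1 : ℚ_[ℓ]) ⊗ₜ[ℚ] x))
      rw [LinearMap.baseChange_tmul, ee_one, ee_one, h x]
    refine LinearMap.ext fun y => ?_
    have h2 := LinearMap.congr_fun h1 ((ee ℓ).symm y)
    rw [LinearMap.comp_apply, LinearMap.comp_apply, LinearEquiv.coe_coe,
      LinearEquiv.apply_symm_apply] at h2
    rw [h2, LinearEquiv.conj_apply_apply]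
  · rintro rfl x
    rw [← ee_one, LinearEquiv.conj_apply_apply, LinearEquiv.symm_apply_apply,
      LinearMap.baseChange_tmul, ee_one]

theorem conj_mul (A B : End ℚ_[ℓ] (ℚ_[ℓ] ⊗[ℚ] (Betti n))) :
    (ee ℓ).conj (A * B) = (ee ℓ).conj A * (ee ℓ).conj B := by
  refine LinearMap.ext fun y => ?_
  rw [Module.End.mul_apply, LinearEquiv.conj_apply_apply, LinearEquiv.conj_apply_apply,
    LinearEquiv.conj_apply_apply, LinearEquiv.symm_apply_apply, Module.End.mul_apply]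

/-- the extension of scalars in terms of the tensor product -/
theorem mem_scalars {𝔤 : Submodule ℚ (End ℚ (Betti n))}
    {Y : End ℚ_[ℓ] (ℚ_[ℓ] ⊗[ℚ] (Betti n))} :
    (ee ℓ).conj Y ∈ scal ℓ 𝔤 ↔ Y ∈ bcS ℚ_[ℓ] 𝔤 := by
  have h1 : {Y : End ℚ_[ℓ] (∀ i, Fin (n i) → ℚ_[ℓ]) | ∃ X ∈ 𝔤, Extends X Y} =
      (ee ℓ).conj '' (LinearMap.baseChange ℚ_[ℓ] '' (𝔤 : Set (End ℚ (Betti n)))) := by
    ext Z
    constructor
    · rintro ⟨X, hX, h⟩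
      rw [extends_iff] at h
      exact ⟨_, ⟨X, hX, rfl⟩, h.symm⟩
    · rintro ⟨_, ⟨X, hX, rfl⟩, rfl⟩
      exact ⟨X, hX, (extends_iff ℓ X _).2 rfl⟩
  have h2 : scal ℓ 𝔤 = (bcS ℚ_[ℓ] 𝔤).map (ee (n := n) ℓ).conj.toLinearMap := by
    unfold scal scalars bcS
    rw [h1, Submodule.map_span]
    rfl
  rw [h2]
  constructor
  · rintro ⟨Z, hZ, h⟩
    have h3 : Z = Y := (ee ℓ).conj.injective h
    rwa [← h3]
  · exact fun h => ⟨Y, h, rfl⟩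

theorem exists_conj (Z : End ℚ_[ℓ] (∀ i, Fin (n i) → ℚ_[ℓ])) :
    ∃ Y, Z = (ee ℓ).conj Y := ⟨(ee ℓ).conj.symm Z, ((ee ℓ).conj.apply_symm_apply Z).symm⟩

/-- The rank of the extension. -/
theorem rank_scalars {𝔤 : Submodule ℚ (End ℚ (Betti n))} {r : ℕ} (h : RatRankLE 𝔤 r) :
    RankLE (scalars ℓ 𝔤) r := by
  obtain ⟨X, hX, hr⟩ := h
  refine ⟨(ee ℓ).conj (X.baseChange ℚ_[ℓ]), (mem_scalars ℓ).2 (mem_bcS hX), ?_⟩
  refine le_trans (le_of_eq ?_) hr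
  rw [← (inputs.bc ℚ ℚ_[ℓ] (Betti n) 𝔤).2.2.2.1 X]
  have h2 : cen (scal ℓ 𝔤) ((ee ℓ).conj (X.baseChange ℚ_[ℓ])) =
      (cen (bcS ℚ_[ℓ] 𝔤) (X.baseChange ℚ_[ℓ])).map (ee (n := n) ℓ).conj.toLinearMap := by
    ext Z
    obtain ⟨Y, rfl⟩ := exists_conj ℓ Z
    rw [mem_cen, mem_scalars, ← conj_mul, ← conj_mul, Submodule.mem_map]
    constructor
    · rintro ⟨h3, h4⟩
      exact ⟨Y, ⟨h3, (ee ℓ).conj.injective h4⟩, rfl⟩
    · rintro ⟨Y', ⟨h3, h4⟩, h5⟩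
      have h6 : Y' = Y := (ee ℓ).conj.injective h5
      subst h6
      exact ⟨h3, congrArg _ h4⟩
  rw [h2]
  exact LinearEquiv.finrank_map_eq (ee ℓ).conj _

/-- An endomorphism whose components commute with the rational endomorphisms. -/
theorem comm_scalars {𝔤 : Submodule ℚ (End ℚ (Betti n))}
    {Y : End ℚ_[ℓ] (ℚ_[ℓ] ⊗[ℚ] (Betti n))}
    (h : ∀ π : ℚ_[ℓ] →ₗ[ℚ] ℚ, ∀ X ∈ 𝔤, X * pM π Y = pM π Y * X) :
    ∀ X ∈ scal ℓ 𝔤, X * (ee ℓ).conj Y = (ee ℓ).conj Y * X := by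
  intro Z hZ
  obtain ⟨Z, rfl⟩ := exists_conj ℓ Z
  rw [mem_scalars] at hZ
  rw [← conj_mul, ← conj_mul]
  congr 1
  induction hZ using Submodule.span_induction with
  | mem Z hZ =>
    obtain ⟨X, hX, rfl⟩ := hZ
    rw [← sub_eq_zero]
    refine eq_zero_of_pM inputs.bc fun π => ?_
    have h4 : (pM π (X.baseChange ℚ_[ℓ] * Y - Y * X.baseChange ℚ_[ℓ]) : End ℚ (Betti n)) =
        pM π (X.baseChange ℚ_[ℓ] * Y) - pM π (Y * X.baseChange ℚ_[ℓ]) := by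
      refine LinearMap.ext fun v => ?_
      rw [LinearMap.sub_apply, pM_apply, pM_apply, pM_apply, LinearMap.sub_apply, map_sub]
    rw [h4, pM_bc_mul, pM_mul_bc, h π X hX, sub_self]
  | zero => rw [zero_mul, mul_zero]
  | add X Y _ _ hX hY => rw [add_mul, mul_add, hX, hY]
  | smul c X _ hX => rw [smul_mul_assoc, mul_smul_comm, hX]

/-- No new endomorphisms, from the topological fundamental group. -/
theorem endos_of_top {Γ : Type} [Group Γ] (ρ : Reps Γ n ℓ) (𝔤 : Submodule ℚ (End ℚ (Betti n)))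
    {𝒯 : Type} [Group 𝒯] (θ : 𝒯 →* Γ) (top : 𝒯 → End ℚ (Betti n))
    (htop : ∀ t, Extends (top t) (sumRep ρ (θ t)))
    (hcom : ∀ Δ : Subgroup 𝒯, Δ.FiniteIndex → CommutantFixed (top '' Δ) 𝔤) :
    EndosCommute (sumRep ρ) (scal ℓ 𝔤) := by
  rintro Z ⟨Δ, hΔ, hZ⟩
  obtain ⟨Y, rfl⟩ := exists_conj ℓ Z
  refine comm_scalars ℓ fun π => hcom (Δ.comap θ) (finiteIndex_comap θ hΔ) _ ?_
  rintro _ ⟨t, ht, rfl⟩
  have h1 := hZ (θ t) ht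
  rw [(extends_iff ℓ _ _).1 (htop t), ← conj_mul, ← conj_mul] at h1
  have h2 := (ee ℓ).conj.injective h1
  rw [← pM_bc_mul, h2, pM_mul_bc]

end lemmas

end Pool.Agent.N203.RE
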